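import Pool.Agent.H6.RCQ.Stmts4

/-!
# RCQ, module CV1: averaging over the contractions of the vertices outside `R`
-/

set_option autoImplicit false

namespace Pool.Agent.H53.RCQ.CV1

open Pool.Agent.H39.RC Pool.Agent.H6.RCQ

/-- stars are connected -/
lemma con_star {V : Type} {G : SimpleGraph V} {u : V} {P : Set V} (h : ∀ p ∈ P, G.Adj u p) :
    H39.RC.Con G (insert u P) := by
  apply (SimpleGraph.connected_iff_exists_forall_reachable _).mpr
  refine ⟨⟨u, Set.mem_insert _ _⟩, ?_⟩
  rintro ⟨w, hw⟩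
  rcases Set.mem_insert_iff.mp hw with rfl | hw'
  · exact SimpleGraph.Reachable.refl _
  · apply SimpleGraph.Adj.reachable
    exact h w hw'

lemma le_pr {V : Type} {R : Finset V} {P : V → V → Prop} {S : Finset (V × V)}
    (h : ∀ e ∈ S, e.1 ∈ R ∧ e.2 ∈ R ∧ e.1 ≠ e.2 ∧ P e.1 e.2) : S.card ≤ pr R P := by
  unfold pr
  apply Finset.card_le_card
  intro e he
  obtain ⟨h1, h2, h3, h4⟩ := h e he
  simp only [Finset.mem_filter, Finset.mem_product]
  exact ⟨⟨h1, h2⟩, h3, h4⟩

/-- the count for one choice -/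
lemma one {V : Type} {G : SimpleGraph V} (hG : PG G) (R : Finset V) (hR : 3 ≤ R.card) (f : V → V) :
    pr R (fun a b => G.Adj a b ∨ ∃ w, w ∉ R ∧ G.Adj w a ∧ G.Adj w b ∧ (f w = a ∨ f w = b)) + 12 ≤
      6 * R.card := by
  classical
  let g : Fin R.card → V := fun i => (R.equivFin.symm i : V)
  have hgR : ∀ i, g i ∈ R := fun i => (R.equivFin.symm i).2
  have hginj : Function.Injective g := by
    intro i i' h
    exact R.equivFin.symm.injective (Subtype.ext h)
  have hgs : ∀ a ∈ R, ∃ i, g i = a := by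
    intro a ha
    refine ⟨R.equivFin ⟨a, ha⟩, ?_⟩
    simp [g]
  let B : Fin R.card → Set V := fun i => insert (g i) {v | v ∉ R ∧ f v = g i ∧ G.Adj (g i) v}
  have h1 : ∀ i, H39.RC.Con G (B i) := fun i => con_star fun p hp => hp.2.2
  have h2 : ∀ i i', i ≠ i' → Disjoint (B i) (B i') := by
    intro i i' hii
    rw [Set.disjoint_left]
    intro v hv hv'
    rcases Set.mem_insert_iff.mp hv with e | e
    · rcases Set.mem_insert_iff.mp hv' with e' | e'
      · exact hii (hginj (e.symm.trans e'))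
      · exact e'.1 (e ▸ hgR i)
    · rcases Set.mem_insert_iff.mp hv' with e' | e'
      · exact e.1 (e' ▸ hgR i')
      · exact hii (hginj (e.2.1.symm.trans e'.2.1))
  have h3 := hG.cnt R.card B hR h1 h2
  refine le_trans (Nat.add_le_add_right ?_ 12) h3
  unfold pr
  refine le_trans (Finset.card_le_card ?_) (Finset.card_image_le
    (f := fun e : Fin R.card × Fin R.card => (g e.1, g e.2)))
  rintro ⟨a, b⟩ hab
  simp only [Finset.mem_filter, Finset.mem_product] at hab
  obtain ⟨⟨ha, hb⟩, hne, hcase⟩ := hab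
  obtain ⟨i, rfl⟩ := hgs a ha
  obtain ⟨i', rfl⟩ := hgs b hb
  refine Finset.mem_image.mpr ⟨(i, i'), ?_, rfl⟩
  simp only [Finset.mem_filter, Finset.mem_univ, true_and]
  refine ⟨fun e => hne (by rw [e]), ?_⟩
  rcases hcase with h | ⟨w, hw, wa, wb, h | h⟩
  · exact ⟨g i, Set.mem_insert _ _, g i', Set.mem_insert _ _, h⟩
  · exact ⟨w, Set.mem_insert_of_mem _ ⟨hw, h, wa.symm⟩, g i', Set.mem_insert _ _, wb⟩
  · exact ⟨g i, Set.mem_insert _ _, w, Set.mem_insert_of_mem _ ⟨hw, h, wb.symm⟩, wa.symm⟩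

theorem cv1 : CV1Stmt := by
  classical
  intro V G R j hfin hG hR hj hD
  have hfv : Fintype V := Fintype.ofFinite V
  -- the choices
  let s : V → Finset V := fun w => if w ∉ R ∧ (D G R w).Nonempty then D G R w else {w}
  have hs : ∀ w, 0 < (s w).card := by
    intro w
    by_cases h : w ∉ R ∧ (D G R w).Nonempty
    · simp only [s, if_pos h]
      exact Finset.card_pos.mpr h.2
    · simp only [s, if_neg h]
      simp
  set T := ∏ w, (s w).card with hT
  have hTpos : 0 < T := Finset.prod_pos fun w _ => hs w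
  have hcard : (Fintype.piFinset s).card = T := Fintype.card_piFinset s
  set E := pr R (fun a b => G.Adj a b) with hE
  set Q := pr R (fun a b => ¬ G.Adj a b ∧ ∃ w, w ∉ R ∧ G.Adj w a ∧ G.Adj w b) with hQ
  let QS := (R ×ˢ R).filter (fun e => e.1 ≠ e.2 ∧ (¬ G.Adj e.1 e.2 ∧
    ∃ w, w ∉ R ∧ G.Adj w e.1 ∧ G.Adj w e.2))
  have hQS : QS.card = Q := by
    rw [hQ]
    unfold pr
    simp only [QS]
  -- helpers
  have hh : ∀ e : V × V, ∃ w, e ∈ QS → w ∉ R ∧ G.Adj w e.1 ∧ G.Adj w e.2 := by
    intro e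
    by_cases he : e ∈ QS
    · obtain ⟨w, hw⟩ := (Finset.mem_filter.mp he).2.2.2
      exact ⟨w, fun _ => hw⟩
    · exact ⟨e.1, fun h => absurd h he⟩
  choose W hW using hh
  -- the count for one choice
  have hone : ∀ f ∈ Fintype.piFinset s,
      E + (QS.filter (fun e => f (W e) = e.1 ∨ f (W e) = e.2)).card + 12 ≤ 6 * R.card := by
    intro f _
    refine le_trans (Nat.add_le_add_right ?_ 12) (one hG R hR f)
    have hE' : E = ((R ×ˢ R).filter (fun e => e.1 ≠ e.2 ∧ G.Adj e.1 e.2)).card := by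
      rw [hE]
      unfold pr
      congr!
    rw [hE', ← Finset.card_union_of_disjoint]
    · apply le_pr
      intro e he
      rcases Finset.mem_union.mp he with h | h
      · rw [Finset.mem_filter, Finset.mem_product] at h
        exact ⟨h.1.1, h.1.2, h.2.1, Or.inl h.2.2⟩
      · rw [Finset.mem_filter] at h
        obtain ⟨h1, h2⟩ := h
        obtain ⟨w1, w2, w3⟩ := hW e h1
        rw [Finset.mem_filter, Finset.mem_product] at h1
        exact ⟨h1.1.1, h1.1.2, h1.2.1, Or.inr ⟨W e, w1, w2, w3, h2⟩⟩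
    · rw [Finset.disjoint_left]
      intro e h1 h2
      exact (Finset.mem_filter.mp (Finset.mem_filter.mp h2).1).2.2.1 (Finset.mem_filter.mp h1).2.2
  -- the probability of being covered
  have hprob : ∀ e ∈ QS, 2 * T ≤
      j * ((Fintype.piFinset s).filter (fun f => f (W e) = e.1 ∨ f (W e) = e.2)).card := by
    intro e he
    obtain ⟨w1, w2, w3⟩ := hW e he
    obtain ⟨hRR, hne, hna, -⟩ := Finset.mem_filter.mp he
    rw [Finset.mem_product] at hRR
    have m1 : e.1 ∈ D G R (W e) := Finset.mem_filter.mpr ⟨hRR.1, w2⟩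
    have m2 : e.2 ∈ D G R (W e) := Finset.mem_filter.mpr ⟨hRR.2, w3⟩
    have hsW : s (W e) = D G R (W e) := by
      simp only [s]
      rw [if_pos ⟨w1, ⟨_, m1⟩⟩]
    have hsplit : ((Fintype.piFinset s).filter (fun f => f (W e) = e.1 ∨ f (W e) = e.2)).card =
        ((Fintype.piFinset s).filter (fun f => f (W e) = e.1)).card +
        ((Fintype.piFinset s).filter (fun f => f (W e) = e.2)).card := by
      rw [Finset.filter_or, Finset.card_union_of_disjoint]
      rw [Finset.disjoint_left]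
      intro f h1 h2
      exact hne ((Finset.mem_filter.mp h1).2.symm.trans (Finset.mem_filter.mp h2).2)
    have hc : ∀ a ∈ s (W e), ((Fintype.piFinset s).filter (fun f => f (W e) = a)).card =
        ∏ w ∈ Finset.univ.erase (W e), (s w).card := by
      intro a ha
      rw [Fintype.card_filter_piFinset_eq_of_mem s (W e) ha]
    rw [hsplit, hc _ (hsW ▸ m1), hc _ (hsW ▸ m2)]
    have hTT : T = (s (W e)).card * ∏ w ∈ Finset.univ.erase (W e), (s w).card := by
      rw [hT, ← Finset.mul_prod_erase Finset.univ _ (Finset.mem_univ (W e))]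
    have hle : (s (W e)).card ≤ j := by
      rw [hsW]
      exact hD _ w1
    rw [hTT]
    nlinarith [Nat.mul_le_mul_right (∏ w ∈ Finset.univ.erase (W e), (s w).card) hle]
  -- summation
  have hsum : ∑ f ∈ Fintype.piFinset s,
      (QS.filter (fun e => f (W e) = e.1 ∨ f (W e) = e.2)).card =
      ∑ e ∈ QS, ((Fintype.piFinset s).filter (fun f => f (W e) = e.1 ∨ f (W e) = e.2)).card := by
    simp only [Finset.card_filter]
    exact Finset.sum_comm
  have h1 : ∑ f ∈ Fintype.piFinset s,
      (E + (QS.filter (fun e => f (W e) = e.1 ∨ f (W e) = e.2)).card + 12) ≤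
      ∑ f ∈ Fintype.piFinset s, 6 * R.card := Finset.sum_le_sum hone
  rw [Finset.sum_add_distrib, Finset.sum_add_distrib, Finset.sum_const, Finset.sum_const,
    Finset.sum_const, hcard, hsum] at h1
  simp only [smul_eq_mul] at h1
  have h2 : Q * (2 * T) ≤ j * ∑ e ∈ QS,
      ((Fintype.piFinset s).filter (fun f => f (W e) = e.1 ∨ f (W e) = e.2)).card := by
    rw [← hQS, Finset.mul_sum, ← smul_eq_mul, ← Finset.sum_const]
    exact Finset.sum_le_sum hprob
  have h3 : T * (j * E + 2 * Q + 12 * j) ≤ T * (6 * j * R.card) := by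
    nlinarith [Nat.mul_le_mul_left j h1]
  exact Nat.le_of_mul_le_mul_left h3 hTpos

end Pool.Agent.H53.RCQ.CV1
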