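import Pool.Agent.H6.RCQ.Stmts3

/-!
# RCQ, module GL: two non-adjacent vertices linked to all of `Dx`
-/

set_option autoImplicit false

namespace Pool.Agent.H53.RCQ.GL

open Pool.Agent.H39.RC Pool.Agent.H6.RCQ

variable {V : Type} {G : SimpleGraph V}

/-- stars are connected -/
lemma con_star {u : V} {P : Set V} (h : ∀ p ∈ P, G.Adj u p) : Con G (insert u P) := by
  apply (SimpleGraph.connected_iff_exists_forall_reachable _).mpr
  refine ⟨⟨u, Set.mem_insert _ _⟩, ?_⟩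
  rintro ⟨w, hw⟩
  rcases Set.mem_insert_iff.mp hw with rfl | hw'
  · exact SimpleGraph.Reachable.refl _
  · apply SimpleGraph.Adj.reachable
    exact h w hw'

/-- `K₃,₃` with two stars -/
lemma star33 (hG : PG G) {x u v : V} (hxu : x ≠ u) (hxv : x ≠ v) (huv : u ≠ v)
    (hn : ¬ G.Adj u v) (PA QA : Set V) (hPA : ∀ p ∈ PA, G.Adj u p ∧ p ≠ x)
    (hQA : ∀ q ∈ QA, G.Adj v q ∧ q ≠ x) (hdis : ∀ p ∈ PA, p ∉ QA) (T : Fin 3 → Set V)
    (hT : ∀ i, Con G (T i)) (hTd : ∀ i j, i < j → Disjoint (T i) (T j))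
    (hTx : ∀ i, ∃ b ∈ T i, G.Adj x b) (hx : ∀ i, x ∉ T i) (hu : ∀ i, u ∉ T i)
    (hv : ∀ i, v ∉ T i) (hTP : ∀ i, ∀ p ∈ PA, p ∉ T i) (hTQ : ∀ i, ∀ q ∈ QA, q ∉ T i)
    (aP : ∀ i, ∃ a ∈ insert u PA, ∃ b ∈ T i, G.Adj a b)
    (aQ : ∀ i, ∃ a ∈ insert v QA, ∃ b ∈ T i, G.Adj a b) : False := by
  apply hG.k33
  refine hasMinor_k33 ![{x}, insert u PA, insert v QA] T ?_ hT ?_ hTd ?_ ?_
  · intro i
    fin_cases i
    · exact con_single x
    · exact con_star fun p hp => (hPA p hp).1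
    · exact con_star fun p hp => (hQA p hp).1
  · intro i j hij
    rw [Set.disjoint_left]
    fin_cases i <;> fin_cases j <;> simp only [Fin.reduceFinMk, Fin.zero_eta, Fin.mk_one,
      Fin.isValue, Fin.reduceLT, lt_self_iff_false, Fin.not_lt_zero, Matrix.cons_val,
      Matrix.cons_val_zero, Matrix.cons_val_one] at hij ⊢
    · rintro a ha hb
      rw [Set.mem_singleton_iff] at ha
      subst ha
      rcases Set.mem_insert_iff.mp hb with h | h
      · exact hxu h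
      · exact (hPA _ h).2 rfl
    · rintro a ha hb
      rw [Set.mem_singleton_iff] at ha
      subst ha
      rcases Set.mem_insert_iff.mp hb with h | h
      · exact hxv h
      · exact (hQA _ h).2 rfl
    · rintro a ha hb
      rcases Set.mem_insert_iff.mp ha with h | h
      · subst h
        rcases Set.mem_insert_iff.mp hb with h | h
        · exact huv h
        · exact hn (hQA _ h).1.symm
      · rcases Set.mem_insert_iff.mp hb with h' | h'
        · subst h'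
          exact hn (hPA _ h).1
        · exact hdis _ h h'
  · intro i j
    rw [Set.disjoint_left]
    fin_cases i <;> simp only [Fin.reduceFinMk, Fin.zero_eta, Fin.mk_one,
      Fin.isValue, Matrix.cons_val, Matrix.cons_val_zero, Matrix.cons_val_one]
    · rintro a ha hb
      rw [Set.mem_singleton_iff] at ha
      subst ha
      exact hx j hb
    · rintro a ha hb
      rcases Set.mem_insert_iff.mp ha with h | h
      · subst h
        exact hu j hb
      · exact hTP j a h hb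
    · rintro a ha hb
      rcases Set.mem_insert_iff.mp ha with h | h
      · subst h
        exact hv j hb
      · exact hTQ j a h hb
  · intro i j
    fin_cases i <;> simp only [Fin.reduceFinMk, Fin.zero_eta, Fin.mk_one,
      Fin.isValue, Matrix.cons_val, Matrix.cons_val_zero, Matrix.cons_val_one]
    · obtain ⟨b, hb, h⟩ := hTx j
      exact ⟨x, rfl, b, hb, h⟩
    · exact aP j
    · exact aQ j

/-- connectors -/
lemma conn {x u t : V} (hxt : G.Adj x t) (h : Rch G {x} u t) :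
    ∃ p, p ≠ x ∧ G.Adj u p ∧ (p = t ∨ G.Adj p t) := by
  rcases h with h | ⟨y, hy, h1, h2⟩
  · exact ⟨t, hxt.ne', h, Or.inl rfl⟩
  · exact ⟨y, hy, h1, Or.inr h2⟩

section

variable (hG : PG G) {Dx : Finset V} {x u v : V} (hxu : x ≠ u) (hxv : x ≠ v) (huv : u ≠ v)
  (hn : ¬ G.Adj u v) (huD : u ∉ Dx) (hvD : v ∉ Dx) (hxD : ∀ t ∈ Dx, G.Adj x t)
  (hu : ∀ t ∈ Dx, Rch G {x} u t) (hv : ∀ t ∈ Dx, Rch G {x} v t)

include hG hxu hxv huv hn huD hvD hxD hu hv

/-- three terminals, some of them bad (with their connectors), the others joined by hubs -/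
lemma three_bad {t1 t2 t3 : V} (m1 : t1 ∈ Dx) (m2 : t2 ∈ Dx) (m3 : t3 ∈ Dx)
    (b1 : Bad G x u v t1) (b2 : Bad G x u v t2) (b3 : Bad G x u v t3)
    (n12 : t1 ≠ t2) (n13 : t1 ≠ t3) (n23 : t2 ≠ t3)
    (a12 : ¬ G.Adj t1 t2) (a13 : ¬ G.Adj t1 t3) (a23 : ¬ G.Adj t2 t3) : False := by
  obtain ⟨p1, p1x, p1u, p1t⟩ := conn (hxD _ m1) (hu _ m1)
  obtain ⟨p2, p2x, p2u, p2t⟩ := conn (hxD _ m2) (hu _ m2)
  obtain ⟨p3, p3x, p3u, p3t⟩ := conn (hxD _ m3) (hu _ m3)
  obtain ⟨q1, q1x, q1u, q1t⟩ := conn (hxD _ m1) (hv _ m1)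
  obtain ⟨q2, q2x, q2u, q2t⟩ := conn (hxD _ m2) (hv _ m2)
  obtain ⟨q3, q3x, q3u, q3t⟩ := conn (hxD _ m3) (hv _ m3)
  have tu : ∀ {t}, t ∈ Dx → u ≠ t := fun ht e => huD (e ▸ ht)
  have tv : ∀ {t}, t ∈ Dx → v ≠ t := fun ht e => hvD (e ▸ ht)
  have sy : ∀ {a b : V}, ¬ G.Adj a b → ¬ G.Adj b a := fun h h' => h h'.symm
  refine star33 hG hxu hxv huv hn ({p1, p2, p3} \ {t1, t2, t3}) ({q1, q2, q3} \ {t1, t2, t3})
    ?_ ?_ ?_ ![{t1}, {t2}, {t3}] ?_ ?_ ?_ ?_ ?_ ?_ ?_ ?_ ?_ ?_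
  · rintro p ⟨hp, -⟩
    rcases hp with rfl | rfl | rfl
    exacts [⟨p1u, p1x⟩, ⟨p2u, p2x⟩, ⟨p3u, p3x⟩]
  · rintro p ⟨hp, -⟩
    rcases hp with rfl | rfl | rfl
    exacts [⟨q1u, q1x⟩, ⟨q2u, q2x⟩, ⟨q3u, q3x⟩]
  · rintro p ⟨hp, -⟩ ⟨hq, -⟩
    have hvp : G.Adj v p ∧ p ≠ x := by
      rcases hq with rfl | rfl | rfl
      exacts [⟨q1u, q1x⟩, ⟨q2u, q2x⟩, ⟨q3u, q3x⟩]
    rcases hp with rfl | rfl | rfl
    exacts [b1 _ p1x p1u hvp.1 p1t, b2 _ p2x p2u hvp.1 p2t, b3 _ p3x p3u hvp.1 p3t]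
  · intro i
    fin_cases i <;> exact con_single _
  · intro i j hij
    rw [Set.disjoint_left]
    fin_cases i <;> fin_cases j <;> simp only [Fin.reduceFinMk, Fin.zero_eta, Fin.mk_one,
      Fin.isValue, Fin.reduceLT, lt_self_iff_false, Fin.not_lt_zero, Matrix.cons_val,
      Matrix.cons_val_zero, Matrix.cons_val_one, Set.mem_singleton_iff, forall_eq] at hij ⊢
    exacts [n12, n13, n23]
  · intro i
    fin_cases i
    exacts [⟨t1, rfl, hxD _ m1⟩, ⟨t2, rfl, hxD _ m2⟩, ⟨t3, rfl, hxD _ m3⟩]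
  · intro i
    fin_cases i
    exacts [(hxD _ m1).ne, (hxD _ m2).ne, (hxD _ m3).ne]
  · intro i
    fin_cases i
    exacts [tu m1, tu m2, tu m3]
  · intro i
    fin_cases i
    exacts [tv m1, tv m2, tv m3]
  · rintro i p ⟨-, hp⟩ hp'
    apply hp
    fin_cases i
    exacts [Or.inl hp', Or.inr (Or.inl hp'), Or.inr (Or.inr hp')]
  · rintro i p ⟨-, hp⟩ hp'
    apply hp
    fin_cases i
    exacts [Or.inl hp', Or.inr (Or.inl hp'), Or.inr (Or.inr hp')]
  · have key : ∀ t p, t ∈ ({t1, t2, t3} : Set V) → p ∈ ({p1, p2, p3} : Set V) → G.Adj u p →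
        (p = t ∨ G.Adj p t) → (∀ t' ∈ ({t1, t2, t3} : Set V), t' ≠ t → ¬ G.Adj t' t) →
        ∃ a ∈ insert u (({p1, p2, p3} : Set V) \ {t1, t2, t3}), ∃ b ∈ ({t} : Set V),
          G.Adj a b := by
      intro t p ht hp hup hpt hnn
      by_cases e : p = t
      · exact ⟨u, Set.mem_insert _ _, t, rfl, e ▸ hup⟩
      · have hpt' := hpt.resolve_left e
        exact ⟨p, Set.mem_insert_of_mem _ ⟨hp, fun h => hnn p h e hpt'⟩, t, rfl, hpt'⟩
    intro i
    fin_cases i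
    · refine key t1 p1 (by simp) (by simp) p1u p1t ?_
      rintro t' (rfl | rfl | rfl) h
      exacts [absurd rfl h, sy a12, sy a13]
    · refine key t2 p2 (by simp) (by simp) p2u p2t ?_
      rintro t' (rfl | rfl | rfl) h
      exacts [a12, absurd rfl h, sy a23]
    · refine key t3 p3 (by simp) (by simp) p3u p3t ?_
      rintro t' (rfl | rfl | rfl) h
      exacts [a13, a23, absurd rfl h]
  · have key : ∀ t p, t ∈ ({t1, t2, t3} : Set V) → p ∈ ({q1, q2, q3} : Set V) → G.Adj v p →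
        (p = t ∨ G.Adj p t) → (∀ t' ∈ ({t1, t2, t3} : Set V), t' ≠ t → ¬ G.Adj t' t) →
        ∃ a ∈ insert v (({q1, q2, q3} : Set V) \ {t1, t2, t3}), ∃ b ∈ ({t} : Set V),
          G.Adj a b := by
      intro t p ht hp hup hpt hnn
      by_cases e : p = t
      · exact ⟨v, Set.mem_insert _ _, t, rfl, e ▸ hup⟩
      · have hpt' := hpt.resolve_left e
        exact ⟨p, Set.mem_insert_of_mem _ ⟨hp, fun h => hnn p h e hpt'⟩, t, rfl, hpt'⟩
    intro i
    fin_cases i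
    · refine key t1 q1 (by simp) (by simp) q1u q1t ?_
      rintro t' (rfl | rfl | rfl) h
      exacts [absurd rfl h, sy a12, sy a13]
    · refine key t2 q2 (by simp) (by simp) q2u q2t ?_
      rintro t' (rfl | rfl | rfl) h
      exacts [a12, absurd rfl h, sy a23]
    · refine key t3 q3 (by simp) (by simp) q3u q3t ?_
      rintro t' (rfl | rfl | rfl) h
      exacts [a13, a23, absurd rfl h]

/-- two bad terminals and one good one -/
lemma two_bad {t1 t2 s c : V} (m1 : t1 ∈ Dx) (m2 : t2 ∈ Dx) (m3 : s ∈ Dx)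
    (b1 : Bad G x u v t1) (b2 : Bad G x u v t2) (cx : c ≠ x) (cu : G.Adj u c) (cv : G.Adj v c)
    (cs : s = c ∨ G.Adj c s)
    (n12 : t1 ≠ t2) (n13 : t1 ≠ s) (n23 : t2 ≠ s)
    (a12 : ¬ G.Adj t1 t2) (a13 : ¬ G.Adj t1 s) (a23 : ¬ G.Adj t2 s) : False := by
  obtain ⟨p1, p1x, p1u, p1t⟩ := conn (hxD _ m1) (hu _ m1)
  obtain ⟨p2, p2x, p2u, p2t⟩ := conn (hxD _ m2) (hu _ m2)
  obtain ⟨q1, q1x, q1u, q1t⟩ := conn (hxD _ m1) (hv _ m1)
  obtain ⟨q2, q2x, q2u, q2t⟩ := conn (hxD _ m2) (hv _ m2)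
  have tu : ∀ {t}, t ∈ Dx → u ≠ t := fun ht e => huD (e ▸ ht)
  have tv : ∀ {t}, t ∈ Dx → v ≠ t := fun ht e => hvD (e ▸ ht)
  have sy : ∀ {a b : V}, ¬ G.Adj a b → ¬ G.Adj b a := fun h h' => h h'.symm
  have ct1 : ¬ (c = t1 ∨ G.Adj c t1) := b1 c cx cu cv
  have ct2 : ¬ (c = t2 ∨ G.Adj c t2) := b2 c cx cu cv
  -- connectors avoid `s` and `c`
  have av : ∀ {p t : V}, t ≠ s → ¬ G.Adj t s → ¬ (c = t ∨ G.Adj c t) → (p = t ∨ G.Adj p t) →
      p ≠ s ∧ p ≠ c := by
    intro p t h1 h2 h3 h4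
    refine ⟨?_, ?_⟩
    · rintro rfl
      rcases h4 with h | h
      · exact h1 h.symm
      · exact h2 h.symm
    · rintro rfl
      exact h3 h4
  have A1 := av n13 a13 ct1 p1t
  have A2 := av n23 a23 ct2 p2t
  have B1 := av n13 a13 ct1 q1t
  have B2 := av n23 a23 ct2 q2t
  refine star33 hG hxu hxv huv hn ({p1, p2} \ {t1, t2}) ({q1, q2} \ {t1, t2})
    ?_ ?_ ?_ ![{t1}, {t2}, {s, c}] ?_ ?_ ?_ ?_ ?_ ?_ ?_ ?_ ?_ ?_
  · rintro p ⟨hp, -⟩
    rcases hp with rfl | rfl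
    exacts [⟨p1u, p1x⟩, ⟨p2u, p2x⟩]
  · rintro p ⟨hp, -⟩
    rcases hp with rfl | rfl
    exacts [⟨q1u, q1x⟩, ⟨q2u, q2x⟩]
  · rintro p ⟨hp, -⟩ ⟨hq, -⟩
    have hvp : G.Adj v p ∧ p ≠ x := by
      rcases hq with rfl | rfl
      exacts [⟨q1u, q1x⟩, ⟨q2u, q2x⟩]
    rcases hp with rfl | rfl
    exacts [b1 _ p1x p1u hvp.1 p1t, b2 _ p2x p2u hvp.1 p2t]
  · intro i
    fin_cases i
    · exact con_single _
    · exact con_single _
    · exact con_pair (cs.imp id fun h => h.symm)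
  · intro i j hij
    rw [Set.disjoint_left]
    fin_cases i <;> fin_cases j <;> simp only [Fin.reduceFinMk, Fin.zero_eta, Fin.mk_one,
      Fin.isValue, Fin.reduceLT, lt_self_iff_false, Fin.not_lt_zero, Matrix.cons_val,
      Matrix.cons_val_zero, Matrix.cons_val_one, Set.mem_singleton_iff, Set.mem_insert_iff,
      forall_eq, not_or] at hij ⊢
    exacts [n12, ⟨n13, fun e => ct1 (Or.inl e.symm)⟩, ⟨n23, fun e => ct2 (Or.inl e.symm)⟩]
  · intro i
    fin_cases i
    exacts [⟨t1, rfl, hxD _ m1⟩, ⟨t2, rfl, hxD _ m2⟩, ⟨s, Or.inl rfl, hxD _ m3⟩]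
  · intro i
    fin_cases i
    · exact (hxD _ m1).ne
    · exact (hxD _ m2).ne
    · rintro (h | h)
      · exact (hxD _ m3).ne h
      · exact cx h.symm
  · intro i
    fin_cases i
    · exact tu m1
    · exact tu m2
    · rintro (h | h)
      · exact tu m3 h
      · exact cu.ne h
  · intro i
    fin_cases i
    · exact tv m1
    · exact tv m2
    · rintro (h | h)
      · exact tv m3 h
      · exact cv.ne h
  · rintro i p ⟨hp0, hp⟩ hp'
    fin_cases i
    · exact hp (Or.inl hp')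
    · exact hp (Or.inr hp')
    · rcases hp0 with rfl | rfl <;> rcases hp' with h | h
      exacts [A1.1 h, A1.2 h, A2.1 h, A2.2 h]
  · rintro i p ⟨hp0, hp⟩ hp'
    fin_cases i
    · exact hp (Or.inl hp')
    · exact hp (Or.inr hp')
    · rcases hp0 with rfl | rfl <;> rcases hp' with h | h
      exacts [B1.1 h, B1.2 h, B2.1 h, B2.2 h]
  · have key : ∀ t p, t ∈ ({t1, t2} : Set V) → p ∈ ({p1, p2} : Set V) → G.Adj u p →
        (p = t ∨ G.Adj p t) → (∀ t' ∈ ({t1, t2} : Set V), t' ≠ t → ¬ G.Adj t' t) →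
        ∃ a ∈ insert u (({p1, p2} : Set V) \ {t1, t2}), ∃ b ∈ ({t} : Set V),
          G.Adj a b := by
      intro t p ht hp hup hpt hnn
      by_cases e : p = t
      · exact ⟨u, Set.mem_insert _ _, t, rfl, e ▸ hup⟩
      · have hpt' := hpt.resolve_left e
        exact ⟨p, Set.mem_insert_of_mem _ ⟨hp, fun h => hnn p h e hpt'⟩, t, rfl, hpt'⟩
    intro i
    fin_cases i
    · refine key t1 p1 (by simp) (by simp) p1u p1t ?_
      rintro t' (rfl | rfl) h
      exacts [absurd rfl h, sy a12]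
    · refine key t2 p2 (by simp) (by simp) p2u p2t ?_
      rintro t' (rfl | rfl) h
      exacts [a12, absurd rfl h]
    · exact ⟨u, Set.mem_insert _ _, c, Or.inr rfl, cu⟩
  · have key : ∀ t p, t ∈ ({t1, t2} : Set V) → p ∈ ({q1, q2} : Set V) → G.Adj v p →
        (p = t ∨ G.Adj p t) → (∀ t' ∈ ({t1, t2} : Set V), t' ≠ t → ¬ G.Adj t' t) →
        ∃ a ∈ insert v (({q1, q2} : Set V) \ {t1, t2}), ∃ b ∈ ({t} : Set V),
          G.Adj a b := by
      intro t p ht hp hup hpt hnn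
      by_cases e : p = t
      · exact ⟨v, Set.mem_insert _ _, t, rfl, e ▸ hup⟩
      · have hpt' := hpt.resolve_left e
        exact ⟨p, Set.mem_insert_of_mem _ ⟨hp, fun h => hnn p h e hpt'⟩, t, rfl, hpt'⟩
    intro i
    fin_cases i
    · refine key t1 q1 (by simp) (by simp) q1u q1t ?_
      rintro t' (rfl | rfl) h
      exacts [absurd rfl h, sy a12]
    · refine key t2 q2 (by simp) (by simp) q2u q2t ?_
      rintro t' (rfl | rfl) h
      exacts [a12, absurd rfl h]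
    · exact ⟨v, Set.mem_insert _ _, c, Or.inr rfl, cv⟩

/-- one bad terminal and two good ones with private hubs -/
lemma one_bad {t s1 s2 c1 c2 : V} (m1 : t ∈ Dx) (m2 : s1 ∈ Dx) (m3 : s2 ∈ Dx)
    (b1 : Bad G x u v t) (c1x : c1 ≠ x) (c1u : G.Adj u c1) (c1v : G.Adj v c1)
    (c2x : c2 ≠ x) (c2u : G.Adj u c2) (c2v : G.Adj v c2)
    (cs1 : s1 = c1 ∨ G.Adj c1 s1) (cs2 : s2 = c2 ∨ G.Adj c2 s2)
    (ct1 : ¬ (s1 = t ∨ G.Adj t s1)) (ct2 : ¬ (s2 = t ∨ G.Adj t s2))
    (d1 : ¬ (s1 = c2 ∨ G.Adj c2 s1)) (d2 : ¬ (s2 = c1 ∨ G.Adj c1 s2)) : False := by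
  obtain ⟨p1, p1x, p1u, p1t⟩ := conn (hxD _ m1) (hu _ m1)
  obtain ⟨q1, q1x, q1u, q1t⟩ := conn (hxD _ m1) (hv _ m1)
  have tu : ∀ {t}, t ∈ Dx → u ≠ t := fun ht e => huD (e ▸ ht)
  have tv : ∀ {t}, t ∈ Dx → v ≠ t := fun ht e => hvD (e ▸ ht)
  have e1 : ¬ (c1 = t ∨ G.Adj c1 t) := b1 c1 c1x c1u c1v
  have e2 : ¬ (c2 = t ∨ G.Adj c2 t) := b1 c2 c2x c2u c2v
  have av : ∀ {p : V}, (p = t ∨ G.Adj p t) → p ≠ s1 ∧ p ≠ c1 ∧ p ≠ s2 ∧ p ≠ c2 := by
    intro p h4
    refine ⟨?_, ?_, ?_, ?_⟩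
    · rintro rfl
      exact ct1 (h4.imp id fun h => h.symm)
    · rintro rfl
      exact e1 h4
    · rintro rfl
      exact ct2 (h4.imp id fun h => h.symm)
    · rintro rfl
      exact e2 h4
  obtain ⟨A1, A2, A3, A4⟩ := av p1t
  obtain ⟨B1, B2, B3, B4⟩ := av q1t
  have tc1 : t ≠ c1 := fun e => e1 (Or.inl e.symm)
  have tc2 : t ≠ c2 := fun e => e2 (Or.inl e.symm)
  have ts1 : t ≠ s1 := fun e => ct1 (Or.inl e.symm)
  have ts2 : t ≠ s2 := fun e => ct2 (Or.inl e.symm)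
  have cc : c1 ≠ c2 := by
    rintro rfl
    exact d1 cs1
  have ss : s1 ≠ s2 := by
    rintro rfl
    exact d1 cs2
  have s1c2 : s1 ≠ c2 := fun e => d1 (Or.inl e)
  have s2c1 : s2 ≠ c1 := fun e => d2 (Or.inl e)
  refine star33 hG hxu hxv huv hn ({p1} \ {t}) ({q1} \ {t})
    ?_ ?_ ?_ ![{t}, {s1, c1}, {s2, c2}] ?_ ?_ ?_ ?_ ?_ ?_ ?_ ?_ ?_ ?_
  · rintro p ⟨hp, -⟩
    rw [Set.mem_singleton_iff] at hp
    subst hp
    exact ⟨p1u, p1x⟩
  · rintro p ⟨hp, -⟩
    rw [Set.mem_singleton_iff] at hp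
    subst hp
    exact ⟨q1u, q1x⟩
  · rintro p ⟨hp, -⟩ ⟨hq, -⟩
    rw [Set.mem_singleton_iff] at hp hq
    subst hp
    subst hq
    exact b1 _ p1x p1u q1u p1t
  · intro i
    fin_cases i
    · exact con_single _
    · exact con_pair (cs1.imp id fun h => h.symm)
    · exact con_pair (cs2.imp id fun h => h.symm)
  · intro i j hij
    rw [Set.disjoint_left]
    fin_cases i <;> fin_cases j <;> simp only [Fin.reduceFinMk, Fin.zero_eta, Fin.mk_one,
      Fin.isValue, Fin.reduceLT, lt_self_iff_false, Fin.not_lt_zero, Matrix.cons_val,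
      Matrix.cons_val_zero, Matrix.cons_val_one, Set.mem_singleton_iff, Set.mem_insert_iff,
      forall_eq, forall_eq_or_imp, not_or] at hij ⊢
    exacts [⟨ts1, tc1⟩, ⟨ts2, tc2⟩, ⟨⟨ss, s1c2⟩, s2c1.symm, cc⟩]
  · intro i
    fin_cases i
    exacts [⟨t, rfl, hxD _ m1⟩, ⟨s1, Or.inl rfl, hxD _ m2⟩, ⟨s2, Or.inl rfl, hxD _ m3⟩]
  · intro i
    fin_cases i
    · exact (hxD _ m1).ne
    · rintro (h | h)
      · exact (hxD _ m2).ne h
      · exact c1x h.symm
    · rintro (h | h)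
      · exact (hxD _ m3).ne h
      · exact c2x h.symm
  · intro i
    fin_cases i
    · exact tu m1
    · rintro (h | h)
      · exact tu m2 h
      · exact c1u.ne h
    · rintro (h | h)
      · exact tu m3 h
      · exact c2u.ne h
  · intro i
    fin_cases i
    · exact tv m1
    · rintro (h | h)
      · exact tv m2 h
      · exact c1v.ne h
    · rintro (h | h)
      · exact tv m3 h
      · exact c2v.ne h
  · rintro i p ⟨hp0, hp⟩ hp'
    rw [Set.mem_singleton_iff] at hp0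
    subst hp0
    fin_cases i
    · exact hp hp'
    · rcases hp' with h | h
      exacts [A1 h, A2 h]
    · rcases hp' with h | h
      exacts [A3 h, A4 h]
  · rintro i p ⟨hp0, hp⟩ hp'
    rw [Set.mem_singleton_iff] at hp0
    subst hp0
    fin_cases i
    · exact hp hp'
    · rcases hp' with h | h
      exacts [B1 h, B2 h]
    · rcases hp' with h | h
      exacts [B3 h, B4 h]
  · intro i
    fin_cases i
    · by_cases e : p1 = t
      · exact ⟨u, Set.mem_insert _ _, t, rfl, e ▸ p1u⟩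
      · exact ⟨p1, Set.mem_insert_of_mem _ ⟨rfl, e⟩, t, rfl, p1t.resolve_left e⟩
    · exact ⟨u, Set.mem_insert _ _, c1, Or.inr rfl, c1u⟩
    · exact ⟨u, Set.mem_insert _ _, c2, Or.inr rfl, c2u⟩
  · intro i
    fin_cases i
    · by_cases e : q1 = t
      · exact ⟨v, Set.mem_insert _ _, t, rfl, e ▸ q1u⟩
      · exact ⟨q1, Set.mem_insert_of_mem _ ⟨rfl, e⟩, t, rfl, q1t.resolve_left e⟩
    · exact ⟨v, Set.mem_insert _ _, c1, Or.inr rfl, c1v⟩
    · exact ⟨v, Set.mem_insert _ _, c2, Or.inr rfl, c2v⟩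

end

/-- three good terminals with private hubs -/
lemma no_bad (hG : PG G) {Dx : Finset V} {x u v : V} (hxu : x ≠ u) (hxv : x ≠ v) (huv : u ≠ v)
    (hn : ¬ G.Adj u v) (huD : u ∉ Dx) (hvD : v ∉ Dx) (hxD : ∀ t ∈ Dx, G.Adj x t)
    (s c : Fin 3 → V) (m : ∀ i, s i ∈ Dx) (cx : ∀ i, c i ≠ x) (cu : ∀ i, G.Adj u (c i))
    (cv : ∀ i, G.Adj v (c i)) (cs : ∀ i, s i = c i ∨ G.Adj (c i) (s i))
    (ds : ∀ i j, i ≠ j → ¬ (s i = c j ∨ G.Adj (c j) (s i))) : False := by
  refine star33 hG hxu hxv huv hn ∅ ∅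
    (by simp) (by simp) (by simp) (fun i => {s i, c i}) ?_ ?_ ?_ ?_ ?_ ?_ (by simp) (by simp) ?_ ?_
  · intro i
    exact con_pair ((cs i).imp id fun h => h.symm)
  · intro i j hij
    rw [Set.disjoint_left]
    simp only [Set.mem_singleton_iff, Set.mem_insert_iff, forall_eq, forall_eq_or_imp, not_or]
    refine ⟨⟨?_, ?_⟩, ?_, ?_⟩
    · intro e
      exact ds i j hij.ne (e ▸ cs j)
    · intro e
      exact ds i j hij.ne (Or.inl e)
    · intro e
      exact ds j i hij.ne' (Or.inl e.symm)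
    · intro e
      exact ds i j hij.ne (e ▸ cs i)
  · intro i
    exact ⟨s i, Or.inl rfl, hxD _ (m i)⟩
  · rintro i (h | h)
    · exact (hxD _ (m i)).ne h
    · exact cx i h.symm
  · rintro i (h | h)
    · exact huD (h ▸ m i)
    · exact (cu i).ne h
  · rintro i (h | h)
    · exact hvD (h ▸ m i)
    · exact (cv i).ne h
  · intro i
    exact ⟨u, Set.mem_insert _ _, c i, Or.inr rfl, cu i⟩
  · intro i
    exact ⟨v, Set.mem_insert _ _, c i, Or.inr rfl, cv i⟩

theorem gl : GLStmt := by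
  classical
  intro V G Dx x u v hG hxu hxv huv hn huD hvD hxD hu hv hne
  by_cases hbb : ∃ t ∈ Dx, ∃ t' ∈ Dx, Bad G x u v t ∧ Bad G x u v t' ∧ t ≠ t' ∧ ¬ G.Adj t t'
  · left
    obtain ⟨t, ht, t', ht', bt, bt', htt, hna⟩ := hbb
    refine ⟨t, ht, t', ht', bt, bt', htt, hna, ?_⟩
    intro s hs
    by_contra hcon
    simp only [not_or] at hcon
    obtain ⟨h1, h2, h3, h4⟩ := hcon
    by_cases bs : Bad G x u v s
    · exact three_bad hG hxu hxv huv hn huD hvD hxD hu hv ht ht' hs bt bt' bs htt (Ne.symm h1)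
        (Ne.symm h3) hna h2 h4
    · simp only [Bad, not_forall, not_not] at bs
      obtain ⟨c, cx, cu, cv, cs⟩ := bs
      exact two_bad hG hxu hxv huv hn huD hvD hxD hu hv ht ht' hs bt bt' cx cu cv
        (cs.imp (fun h => h.symm) id) htt (Ne.symm h1) (Ne.symm h3) hna h2 h4
  · right
    have hcl : ∀ t ∈ Dx, ∀ t' ∈ Dx, Bad G x u v t → Bad G x u v t' → t' = t ∨ G.Adj t t' := by
      intro t ht t' ht' bt bt'
      by_contra hcon
      rw [not_or] at hcon
      exact hbb ⟨t, ht, t', ht', bt, bt', Ne.symm hcon.1, hcon.2⟩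
    -- hub sets
    let HS : Finset V → Prop := fun H => (∀ c ∈ H, c ≠ x ∧ G.Adj u c ∧ G.Adj v c) ∧
      ∀ s ∈ Dx, ¬ Bad G x u v s → ∃ c ∈ H, s = c ∨ G.Adj c s
    have hex : ∃ n, ∃ H : Finset V, H.card = n ∧ HS H := by
      have h : ∀ s : V, ∃ c, ¬ Bad G x u v s → (c ≠ x ∧ G.Adj u c ∧ G.Adj v c ∧
          (s = c ∨ G.Adj c s)) := by
        intro s
        by_cases hb : Bad G x u v s
        · exact ⟨s, fun h => absurd hb h⟩
        · have hb' := hb
          simp only [Bad, not_forall, not_not] at hb'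
          obtain ⟨c, cx, cu, cv, cs⟩ := hb'
          exact ⟨c, fun _ => ⟨cx, cu, cv, cs.imp (fun h => h.symm) id⟩⟩
      choose f hf using h
      refine ⟨_, (Dx.filter (fun s => ¬ Bad G x u v s)).image f, rfl, ?_, ?_⟩
      · intro c hc
        obtain ⟨s, hs, rfl⟩ := Finset.mem_image.mp hc
        have := hf s (Finset.mem_filter.mp hs).2
        exact ⟨this.1, this.2.1, this.2.2.1⟩
      · intro s hs hb
        exact ⟨f s, Finset.mem_image.mpr ⟨s, Finset.mem_filter.mpr ⟨hs, hb⟩, rfl⟩,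
          (hf s hb).2.2.2⟩
    obtain ⟨H, hHc, hH1, hH2⟩ := Nat.find_spec hex
    have hmin : ∀ c ∈ H, ∃ s ∈ Dx, ¬ Bad G x u v s ∧ (s = c ∨ G.Adj c s) ∧
        ∀ c' ∈ H, c' ≠ c → ¬ (s = c' ∨ G.Adj c' s) := by
      intro c hc
      by_contra hcon
      apply Nat.find_min hex (m := (H.erase c).card)
      · rw [← hHc]
        exact Finset.card_erase_lt_of_mem hc
      · refine ⟨H.erase c, rfl, fun c' hc' => hH1 c' (Finset.mem_of_mem_erase hc'), ?_⟩
        intro s hs hb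
        by_contra hcon'
        obtain ⟨c', hc', hs'⟩ := hH2 s hs hb
        have e : c' = c := by
          by_contra e
          exact hcon' ⟨c', Finset.mem_erase.mpr ⟨e, hc'⟩, hs'⟩
        subst e
        exact hcon ⟨s, hs, hb, hs', fun c'' hc'' hne' h => hcon'
          ⟨c'', Finset.mem_erase.mpr ⟨hne', hc''⟩, h⟩⟩
    have hle : H.card ≤ 2 := by
      by_contra hcon
      obtain ⟨c1, k1, c2, k2, c3, k3, n12, n13, n23⟩ := Finset.two_lt_card.mp (not_le.mp hcon)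
      obtain ⟨s1, hs1, -, cs1, d1⟩ := hmin c1 k1
      obtain ⟨s2, hs2, -, cs2, d2⟩ := hmin c2 k2
      obtain ⟨s3, hs3, -, cs3, d3⟩ := hmin c3 k3
      refine no_bad hG hxu hxv huv hn huD hvD hxD ![s1, s2, s3] ![c1, c2, c3] ?_ ?_ ?_ ?_ ?_ ?_
      · intro i
        fin_cases i
        exacts [hs1, hs2, hs3]
      · intro i
        fin_cases i
        exacts [(hH1 _ k1).1, (hH1 _ k2).1, (hH1 _ k3).1]
      · intro i
        fin_cases i
        exacts [(hH1 _ k1).2.1, (hH1 _ k2).2.1, (hH1 _ k3).2.1]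
      · intro i
        fin_cases i
        exacts [(hH1 _ k1).2.2, (hH1 _ k2).2.2, (hH1 _ k3).2.2]
      · intro i
        fin_cases i
        exacts [cs1, cs2, cs3]
      · intro i j hij
        fin_cases i <;> fin_cases j
        · exact absurd rfl hij
        · exact d1 c2 k2 n12.symm
        · exact d1 c3 k3 n13.symm
        · exact d2 c1 k1 n12
        · exact absurd rfl hij
        · exact d2 c3 k3 n23.symm
        · exact d3 c1 k1 n13
        · exact d3 c2 k2 n23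
        · exact absurd rfl hij
    by_cases hb : ∃ t ∈ Dx, Bad G x u v t
    · right
      obtain ⟨t, ht, bt⟩ := hb
      have hbc : ∀ s ∈ Dx, Bad G x u v s → s = t ∨ G.Adj t s := fun s hs bs =>
        hcl t ht s hs bt bs
      rcases (by omega : H.card = 0 ∨ H.card = 1 ∨ H.card = 2) with h0 | h1 | h2
      · right
        rw [Finset.card_eq_zero] at h0
        refine ⟨t, ht, bt, ?_⟩
        intro s hs
        by_cases bs : Bad G x u v s
        · exact hbc s hs bs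
        · obtain ⟨c, hc, -⟩ := hH2 s hs bs
          rw [h0] at hc
          exact absurd hc (Finset.notMem_empty c)
      · left
        obtain ⟨c, hc⟩ := Finset.card_eq_one.mp h1
        have hc' : c ∈ H := by rw [hc]; exact Finset.mem_singleton_self c
        refine ⟨c, t, ht, (hH1 c hc').1, (hH1 c hc').2.1, (hH1 c hc').2.2, bt, ?_⟩
        intro s hs
        by_cases bs : Bad G x u v s
        · rcases hbc s hs bs with h | h
          · exact Or.inr (Or.inr (Or.inl h))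
          · exact Or.inr (Or.inr (Or.inr h))
        · obtain ⟨c', hc'', h⟩ := hH2 s hs bs
          rw [hc, Finset.mem_singleton] at hc''
          subst hc''
          rcases h with h | h
          · exact Or.inl h
          · exact Or.inr (Or.inl h)
      · left
        obtain ⟨c1, c2, hcc, hc⟩ := Finset.card_eq_two.mp h2
        have k1 : c1 ∈ H := by rw [hc]; simp
        have k2 : c2 ∈ H := by rw [hc]; simp
        by_cases e1 : ∀ s ∈ Dx, s = c1 ∨ G.Adj c1 s ∨ s = t ∨ G.Adj t s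
        · exact ⟨c1, t, ht, (hH1 _ k1).1, (hH1 _ k1).2.1, (hH1 _ k1).2.2, bt, e1⟩
        by_cases e2 : ∀ s ∈ Dx, s = c2 ∨ G.Adj c2 s ∨ s = t ∨ G.Adj t s
        · exact ⟨c2, t, ht, (hH1 _ k2).1, (hH1 _ k2).2.1, (hH1 _ k2).2.2, bt, e2⟩
        exfalso
        push Not at e1 e2
        obtain ⟨s2, hs2, x1, x2, x3, x4⟩ := e1
        obtain ⟨s1, hs1, y1, y2, y3, y4⟩ := e2
        have gd : ∀ s ∈ Dx, s ≠ t → ¬ G.Adj t s → (s = c1 ∨ G.Adj c1 s) ∨ (s = c2 ∨ G.Adj c2 s) := by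
          intro s hs h1 h2
          by_cases bs : Bad G x u v s
          · rcases hbc s hs bs with h | h
            · exact absurd h h1
            · exact absurd h h2
          · obtain ⟨c, hc', h⟩ := hH2 s hs bs
            rw [hc, Finset.mem_insert, Finset.mem_singleton] at hc'
            rcases hc' with rfl | rfl
            · exact Or.inl h
            · exact Or.inr h
        have g1 := (gd s1 hs1 y3 y4).resolve_right (fun h => h.elim y1 y2)
        have g2 := (gd s2 hs2 x3 x4).resolve_left (fun h => h.elim x1 x2)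
        exact one_bad hG hxu hxv huv hn huD hvD hxD hu hv ht hs1 hs2 bt (hH1 _ k1).1
          (hH1 _ k1).2.1 (hH1 _ k1).2.2 (hH1 _ k2).1 (hH1 _ k2).2.1 (hH1 _ k2).2.2 g1 g2
          (fun h => h.elim y3 y4) (fun h => h.elim x3 x4) (fun h => h.elim y1 y2)
          (fun h => h.elim x1 x2)
    · left
      push Not at hb
      have hcov : ∀ s ∈ Dx, ∃ c ∈ H, s = c ∨ G.Adj c s := fun s hs => hH2 s hs (hb s hs)
      have hpos : 0 < H.card := by
        obtain ⟨s, hs⟩ := hne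
        obtain ⟨c, hc, -⟩ := hcov s hs
        exact Finset.card_pos.mpr ⟨c, hc⟩
      rcases (by omega : H.card = 1 ∨ H.card = 2) with h1 | h2
      · obtain ⟨c, hc⟩ := Finset.card_eq_one.mp h1
        have hc' : c ∈ H := by rw [hc]; exact Finset.mem_singleton_self c
        refine ⟨c, c, (hH1 c hc').1, (hH1 c hc').2.1, (hH1 c hc').2.2, (hH1 c hc').1,
          (hH1 c hc').2.1, (hH1 c hc').2.2, ?_⟩
        intro s hs
        obtain ⟨c', hc'', h⟩ := hcov s hs
        rw [hc, Finset.mem_singleton] at hc''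
        subst hc''
        rcases h with h | h
        · exact Or.inl h
        · exact Or.inr (Or.inl h)
      · obtain ⟨c1, c2, hcc, hc⟩ := Finset.card_eq_two.mp h2
        have k1 : c1 ∈ H := by rw [hc]; simp
        have k2 : c2 ∈ H := by rw [hc]; simp
        refine ⟨c1, c2, (hH1 _ k1).1, (hH1 _ k1).2.1, (hH1 _ k1).2.2, (hH1 _ k2).1,
          (hH1 _ k2).2.1, (hH1 _ k2).2.2, ?_⟩
        intro s hs
        obtain ⟨c, hc', h⟩ := hcov s hs
        rw [hc, Finset.mem_insert, Finset.mem_singleton] at hc'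
        rcases hc' with rfl | rfl
        · rcases h with h | h
          · exact Or.inl h
          · exact Or.inr (Or.inl h)
        · rcases h with h | h
          · exact Or.inr (Or.inr (Or.inl h))
          · exact Or.inr (Or.inr (Or.inr h))

end Pool.Agent.H53.RCQ.GL
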