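import Pool.Agent.H6.RCQ.Stmts5
import Pool.Agent.H59.RCR.A4
import Pool.Agent.H59.RCR.A5
import Pool.Agent.H21.RCR.A6
import Pool.Agent.H21.RCR.A7

/-!
# RCQ, module SM8: crossing connected sets in a triangulated sphere meet
-/

set_option autoImplicit false

namespace Pool.Agent.H53.RCQ.SM8

open Pool.Agent.H39.RC Pool.Agent.H6.RCQ Pool.Agent.H3.RCR

/-- a simple path inside a connected set -/
lemma exists_path {G : SimpleGraph ℕ} {P : Set ℕ} (hP : H39.RC.Con G P) {a c : ℕ} (ha : a ∈ P)
    (hc : c ∈ P) : ∃ p : G.Walk a c, p.IsPath ∧ ∀ v ∈ p.support, v ∈ P := by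
  classical
  have h := hP.preconnected ⟨a, ha⟩ ⟨c, hc⟩
  obtain ⟨q⟩ := h
  let q2 : G.Walk a c := q.map (SimpleGraph.Embedding.induce P).toHom
  refine ⟨q2.bypass, q2.bypass_isPath, ?_⟩
  intro v hv
  have h1 : v ∈ q2.support := q2.support_bypass_subset_support hv
  have h2 : q2.support = q.support.map (SimpleGraph.Embedding.induce P).toHom :=
    SimpleGraph.Walk.support_map _ _
  rw [h2] at h1
  obtain ⟨w, -, hw⟩ := List.mem_map.mp h1
  rw [← hw]
  exact w.2

/-- the cycle through `x` and a path -/
def cyc {G : SimpleGraph ℕ} {a c : ℕ} (x : ℕ) (p : G.Walk a c) : ZMod (p.length + 2) → ℕ :=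
  fun t => if t.val = 0 then x else p.getVert (t.val - 1)

lemma adj_of {F : Finset Tri} (hF : Sph F) {a b : ℕ} (h : (FG F).Adj a b) : Adj F a b := by
  rcases h.2 with h | h
  · exact h
  · exact hF.toPre.adj_symm h

theorem main (h6 : A6Stmt) (h7 : A7Stmt) : SM8Stmt := by
  classical
  intro F x n l hF hinj hl i j k m hij hjk hkm hmn P Q hP hQ hxP hxQ ha hc hb hd
  by_contra hne
  rw [Set.not_nonempty_iff_eq_empty] at hne
  have hdis : ∀ v, v ∈ P → v ∈ Q → False := by
    intro v h1 h2
    have : v ∈ P ∩ Q := ⟨h1, h2⟩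
    rw [hne] at this
    exact this
  have hpre := hF.toPre
  -- darts at `x`
  have hlA : ∀ r < n, Adj F x (l r) := fun r hr => ⟨_, hl r hr⟩
  obtain ⟨p, hp, hps⟩ := exists_path hP ha hc
  have hlen : 1 ≤ p.length := by
    by_contra hcon
    have h0 : p.length = 0 := by omega
    have := SimpleGraph.Walk.eq_of_length_eq_zero h0
    have := hinj i (by omega) k (by omega) this
    omega
  set N := p.length + 2 with hN
  have hNe : NeZero N := ⟨by omega⟩
  let c : ZMod N → ℕ := fun t => if t.val = 0 then x else p.getVert (t.val - 1)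
  have c0 : c 0 = x := by simp [c]
  have hone : (1 : ZMod N).val = 1 := by
    have : Fact (1 < N) := ⟨by omega⟩
    exact ZMod.val_one N
  have c1 : c 1 = l i := by
    show (if (1 : ZMod N).val = 0 then x else p.getVert ((1 : ZMod N).val - 1)) = l i
    rw [hone, if_neg one_ne_zero]
    exact SimpleGraph.Walk.getVert_zero p
  have cval : ∀ t : ZMod N, t.val ≠ 0 → c t = p.getVert (t.val - 1) := by
    intro t ht
    exact if_neg ht
  have hnx : ∀ r, p.getVert r ≠ x := by
    intro r e
    apply hxP
    rw [← e]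
    exact hps _ (SimpleGraph.Walk.getVert_mem_support p r)
  have hcx : ∀ t, c t = x → t = 0 := by
    intro t ht
    by_contra hcon
    have h0 : t.val ≠ 0 := fun h => hcon ((ZMod.val_eq_zero t).mp h)
    rw [cval t h0] at ht
    exact hnx _ ht
  have hlt : ∀ t : ZMod N, t.val < N := fun t => ZMod.val_lt t
  have hcinj : Function.Injective c := by
    intro s t hst
    by_cases hs : s.val = 0
    · have hs' : s = 0 := (ZMod.val_eq_zero s).mp hs
      rw [hs', c0] at hst
      rw [hs', hcx t hst.symm]
    · by_cases ht : t.val = 0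
      · have ht' : t = 0 := (ZMod.val_eq_zero t).mp ht
        rw [ht', c0] at hst
        rw [ht', hcx s hst]
      · rw [cval s hs, cval t ht] at hst
        have h1 := hlt s
        have h2 := hlt t
        have h3 := hp.getVert_injOn (show s.val - 1 ∈ {i | i ≤ p.length} by
          show s.val - 1 ≤ p.length
          omega) (show t.val - 1 ∈ {i | i ≤ p.length} by
          show t.val - 1 ≤ p.length
          omega) hst
        apply ZMod.val_injective
        omega
  have hsucc : ∀ t : ZMod N, t.val + 1 < N → (t + 1).val = t.val + 1 := by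
    intro t ht
    rw [ZMod.val_add_of_lt]
    · rw [hone]
    · rw [hone]
      exact ht
  have hlast : ∀ t : ZMod N, t.val + 1 = N → t + 1 = 0 := by
    intro t ht
    have h1 : ((t.val + 1 : ℕ) : ZMod N) = t + 1 := by
      push_cast
      rw [ZMod.natCast_zmod_val]
    rw [← h1, ht]
    exact ZMod.natCast_self N
  have hcyc : Cyc F c := by
    refine ⟨by omega, hcinj, ?_⟩
    intro t
    have h1 := hlt t
    by_cases hs : t.val + 1 < N
    · have h2 := hsucc t hs
      have h3 : c (t + 1) = p.getVert t.val := by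
        rw [cval (t + 1) (by omega), h2]
        rfl
      by_cases h0 : t.val = 0
      · have ht' : t = 0 := (ZMod.val_eq_zero t).mp h0
        rw [h3, h0, ht', c0, SimpleGraph.Walk.getVert_zero]
        exact hlA i (by omega)
      · rw [h3, cval t h0]
        have h4 := p.adj_getVert_succ (i := t.val - 1) (by omega)
        have h5 : t.val - 1 + 1 = t.val := by omega
        rw [h5] at h4
        exact adj_of hF h4
    · have h2 : t.val + 1 = N := by omega
      rw [hlast t h2, c0, cval t (by omega)]
      have h3 : t.val - 1 = p.length := by omega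
      rw [h3, SimpleGraph.Walk.getVert_length]
      exact hpre.adj_symm (hlA k (by omega))
  -- the last vertex
  have hmem : ∀ t, t ≠ 0 → c t ∈ P := by
    intro t ht
    rw [cval t (fun h => ht ((ZMod.val_eq_zero t).mp h))]
    exact hps _ (SimpleGraph.Walk.getVert_mem_support p _)
  have hcl : ∀ t : ZMod N, t + 1 = 0 → c t = l k := by
    intro t ht
    have h1 := hlt t
    have h2 : t.val + 1 = N := by
      by_contra hcon
      have := hsucc t (by omega)
      rw [ht, ZMod.val_zero] at this
      omega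
    rw [cval t (by omega)]
    have h3 : t.val - 1 = p.length := by omega
    rw [h3, SimpleGraph.Walk.getVert_length]
  obtain ⟨S, hS⟩ := (h6 F hF N c).1 hcyc
  obtain ⟨-, hin, -⟩ := h7 F hF N c S hcyc hS
  -- jumps at `x`
  have jx : ∀ y, Jump F S x y → y = l i := by
    intro y hy
    obtain ⟨t, h1, h2⟩ := (hS.jump x y).mp hy
    have h3 := hcx t h1.symm
    rw [h3, zero_add, c1] at h2
    exact h2
  have jy : ∀ y, Jump F S y x → y = l k := by
    intro y hy
    obtain ⟨t, h1, h2⟩ := (hS.jump y x).mp hy
    have h3 := hcx (t + 1) h2.symm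
    rw [h1, hcl t h3]
  have hrot : ∀ {a b d : ℕ}, (a, b, d) ∈ S → (b, d, a) ∈ S := fun h => hS.rot _ _ _ h
  -- faces at `x`
  let f : ℕ → Tri := fun r => (x, l r, l ((r + 1) % n))
  have fF : ∀ r < n, f r ∈ F := hl
  -- consecutive faces on the same side unless at i, k
  have step : ∀ r, r + 1 < n → r + 1 ≠ i → r + 1 ≠ k → (f r ∈ S ↔ f (r + 1) ∈ S) := by
    intro r hr h1 h2
    have e1 : (r + 1) % n = r + 1 := Nat.mod_eq_of_lt hr
    have m1 : f r ∈ F := fF r (by omega)
    have m2 : f (r + 1) ∈ F := fF (r + 1) hr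
    have e2 : f r = (x, l r, l (r + 1)) := by simp only [f, e1]
    constructor
    · intro h
      by_contra hcon
      have hj : Jump F S (l (r + 1)) x := by
        refine ⟨⟨l r, ?_⟩, ⟨l ((r + 1 + 1) % n), m2, hcon⟩⟩
        rw [e2] at h
        exact hrot (hrot h)
      have := hinj _ hr _ (by omega) (jy _ hj)
      omega
    · intro h
      by_contra hcon
      have hj : Jump F S x (l (r + 1)) := by
        refine ⟨⟨_, h⟩, ⟨l r, ?_, ?_⟩⟩
        · rw [e2] at m1
          exact hpre.rot2 m1
        · intro h'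
          apply hcon
          rw [e2]
          exact hrot h'
      have := hinj _ hr _ (by omega) (jx _ hj)
      omega
  have hfi : f i ∈ S := by
    have hj : Jump F S x (l i) := (hS.jump x (l i)).mpr ⟨0, c0.symm, by rw [zero_add, c1]⟩
    obtain ⟨⟨y, hy⟩, -⟩ := hj
    have := hpre.uniq _ _ _ _ (hS.sub hy) (fF i (by omega))
    rw [this] at hy
    exact hy
  have hfk : f k ∉ S := by
    have hj : Jump F S (l k) x := by
      refine (hS.jump (l k) x).mpr ⟨-1, ?_, ?_⟩
      · rw [hcl (-1) (by simp)]
      · simp [c0]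
    obtain ⟨-, y, hy, hy'⟩ := hj
    have := hpre.uniq _ _ _ _ hy (fF k (by omega))
    rw [this] at hy'
    exact hy'
  have hfj : ∀ r, i ≤ r → r < k → f r ∈ S := by
    intro r hr
    induction r, hr using Nat.le_induction with
    | base => intro _; exact hfi
    | succ r hr ih =>
      intro h
      exact (step r (by omega) (by omega) (by omega)).mp (ih (by omega))
  have hfm : ∀ r, k ≤ r → r ≤ m → f r ∉ S := by
    intro r hr
    induction r, hr using Nat.le_induction with
    | base => intro _; exact hfk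
    | succ r hr ih =>
      intro h h'
      exact ih (by omega) ((step r (by omega) (by omega) (by omega)).mpr h')
  -- `Q` stays inside
  have hQc : ∀ v ∈ Q, ∀ t, v ≠ c t := by
    intro v hv t e
    by_cases ht : t = 0
    · rw [ht, c0] at e
      exact hxQ (e ▸ hv)
    · exact hdis v (e ▸ hmem t ht) hv
  have hQS : ∀ v ∈ Q, ∀ w ∈ Q, (FG F).Adj v w → v ∈ verts S → w ∈ verts S := by
    intro v hv w hw hvw hvS
    obtain ⟨z, hz⟩ := adj_of hF hvw
    have h1 := hin v hvS (hQc v hv) _ _ hz
    exact mem_verts.mpr ⟨_, _, hrot h1⟩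
  have hj1 : l j ∈ verts S := mem_verts.mpr ⟨_, _, hrot (hfj j (by omega) (by omega))⟩
  have hreach := hQ.preconnected ⟨l j, hb⟩ ⟨l m, hd⟩
  have hall : ∀ w : Q, ((FG F).induce Q).Reachable ⟨l j, hb⟩ w → (w : ℕ) ∈ verts S := by
    rintro w ⟨q⟩
    have gen : ∀ (a b : Q) (q : ((FG F).induce Q).Walk a b), (a : ℕ) ∈ verts S →
        (b : ℕ) ∈ verts S := by
      intro a b q
      induction q with
      | nil => exact id
      | cons h q ih =>
        intro ha
        exact ih (hQS _ (Subtype.property _) _ (Subtype.property _) h ha)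
    exact gen _ _ q hj1
  have hm1 : l m ∈ verts S := hall _ hreach
  have hm2 := hin (l m) hm1 (hQc _ hd) _ _ (hpre.rot _ _ _ (fF m hmn))
  exact hfm m (by omega) le_rfl (hrot (hrot hm2))

theorem sm8 : SM8Stmt :=
  main (H21.RCR.a6 A5.a5) (H21.RCR.a7 A4.a4)

end Pool.Agent.H53.RCQ.SM8
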